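import Pool.Agent.H59.R1.Two
import Pool.Agent.H59.R1.CohE

/-!
# MP_81dc49: curves of Selmer rank one and of rank one over `F_q(t)`, `q` odd

`K = F(t)`, `F` any finite field of odd order, and `E_g : y² = x³ + a x² + b x + c` for
`g = (a, b, c)`.  `Ell F m` is the set of all `g ∈ F[t]³` with `deg a ≤ 2m`, `deg b ≤ 4m`,
`deg c ≤ 6m` for which `E_g` is nonsingular, `Sht F m` the subset `a = 0`, and `MinE F m` the subset
of `Sht F m` of the equations which are minimal at all primes of `F[t]`.

`R1 g`: the 2-Selmer group of `E_g` has two elements, its nontrivial class is not locally trivial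
at `t = 0`, and `g` is the twist by `t d` of an equation `f` with squarefree discriminant (also at
infinity), `d` squarefree with prime factors of even degree, `f` linear times irreducible quadratic
modulo `t` and modulo these primes and irreducible at infinity.  Published facts on the elliptic
surface of `E_g` imply that its analytic rank is one (`Coh`, `arank`); with the formula of Gross and
Zagier its rank is one.

(1) Among all curves, all short equations and all short minimal equations of height `m` a positive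
proportion (independent of `m`) has a finite group of points, and a positive proportion has property
`R1`, hence rank at most one.
(2) The explicit family `ZR e T1 T2 m` has positive density in `Ell F m`, and a proportion
`0.2097 - ε` of its elements has property `R1`.
(3) If `R1 g` and `Coh g M`, then the `L`-polynomial of `E_g`, defined by the Euler product, has a
simple zero at `T = 1/q`.
-/

set_option autoImplicit false

open Polynomial Pool.AVR Pool.AVS Pool.RZ Pool.PRL Pool.RKO

namespace Pool.Agent.H59.R1.Candidate.RankOne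

open Classical in
theorem result (F : Type) [Field F] [Finite F] (h2 : (2 : F) ≠ 0) :
    (∃ c : ℝ, 0 < c ∧ ∃ N : ℕ, ∀ m : ℕ, N ≤ m → PosTwo c (Ell F m) ∧
      ((3 : F) ≠ 0 → PosTwo c (Sht F m) ∧ PosTwo c (MinE F m))) ∧
    (∀ ε : ℝ, 0 < ε →
      (∀ k : ℕ, ∃ (e : ℕ) (T1 T2 : Finset F[X]), Adm e T1 T2 ∧ T1.card = k) ∧
      ∃ k0 : ℕ, ∀ (e : ℕ) (T1 T2 : Finset F[X]), Adm e T1 T2 → Odd T1.card → k0 ≤ T1.card →
      ∃ c : ℝ, 0 < c ∧ ∃ N : ℕ, ∀ m : ℕ, N ≤ m →
        PosR ε c (ZR e T1 T2 m) (Ell F m) ∧
        (∀ g ∈ ZR e T1 T2 m, R1 g → AddGroup.FG (EK g) ∧ rk g ≤ 1) ∧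
        ((3 : F) ≠ 0 → PosR ε c {g | g ∈ ZR e T1 T2 m ∧ g.1 = 0} (Sht F m) ∧
          {g | g ∈ ZR e T1 T2 m ∧ g.1 = 0} ⊆ MinE F m)) ∧
    ∀ g : F[X] × F[X] × F[X], R1 g → ∀ (M : Type) [AddCommGroup M] [Module ℤ_[2] M]
      [Module.Free ℤ_[2] M] [Module.Finite ℤ_[2] M], Coh g M → AR g 1 :=
  ⟨mainTwo F h2, mainR1 F h2, fun _ hg _ _ _ _ _ C => arank hg C⟩

end Pool.Agent.H59.R1.Candidate.RankOne
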